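import Pool.Agent.helper55.NS.H1
import Pool.Agent.helper36.NS.M

open Finset

namespace Pool.Agent.helper56.NS

open Pool.Agent.helper43.NO Pool.Agent.helper43.NS
open Pool.Agent.helper55.NS Pool.Agent.helper36.NS Pool.Agent.helper73.NS Pool.Agent.helper95.NS

/-- the square of a sum, as a sum over pairs -/
lemma sq_sum_pairs {L : ℕ} (a : Fin L → ℝ) :
    (∑ i, a i) ^ 2 = ∑ q : Fin L × Fin L, a q.1 * a q.2 := by
  rw [sq, Finset.sum_mul_sum, Fintype.sum_prod_type]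

/-- product over the blocks of the squares -/
lemma prod_sq {r L : ℕ} (a : Fin r → Fin L → ℝ) :
    ∏ j, (∑ i, a j i) ^ 2 =
      ∑ τ : Fin r → Fin L × Fin L, ∏ j, (a j (τ j).1 * a j (τ j).2) := by
  simp_rw [sq_sum_pairs]
  rw [Finset.prod_univ_sum, Fintype.piFinset_univ]

/-- the diagonal maps -/
lemma diag_sum (r L : ℕ) (V : ℝ) :
    ∑ τ : Fin r → Fin L × Fin L, (if ∀ j, (τ j).1 = (τ j).2 then V ^ r else 0) =
      (L : ℝ) ^ r * V ^ r := by
  have h1 : ∀ τ : Fin r → Fin L × Fin L,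
      (if ∀ j, (τ j).1 = (τ j).2 then V ^ r else 0) =
        ∏ j, (if (τ j).1 = (τ j).2 then V else 0) := by
    intro τ
    by_cases h : ∀ j, (τ j).1 = (τ j).2
    · rw [if_pos h, Finset.prod_congr rfl (fun j _ => if_pos (h j)), Finset.prod_const,
        Finset.card_univ, Fintype.card_fin]
    · rw [if_neg h]
      push Not at h
      obtain ⟨j, hj⟩ := h
      exact (Finset.prod_eq_zero (Finset.mem_univ j) (if_neg hj)).symm
  rw [Finset.sum_congr rfl (fun τ _ => h1 τ)]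
  have h2 := Finset.prod_univ_sum (fun _ : Fin r => (Finset.univ : Finset (Fin L × Fin L)))
    (fun _ q => if q.1 = q.2 then V else 0)
  rw [Fintype.piFinset_univ] at h2
  rw [← h2]
  have h3 : ∑ q : Fin L × Fin L, (if q.1 = q.2 then V else 0) = L * V := by
    rw [Fintype.sum_prod_type]
    simp
  rw [h3, Finset.prod_const, Finset.card_univ, Fintype.card_fin, mul_pow]

/-- `Y = Gf P c` is the constant `M` on all shifts of all `n ∈ B`: then
`∏_j (∑_i Y)^2 = (LM)^(2r)` there, and it is nonnegative everywhere; expand with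
`Finset.prod_univ_sum` / `Finset.sum_mul_sum` and use `term` for each of the `L^(2r)` maps `τ`
(`L^r` of them are diagonal) -/
theorem block (P : Finset ℕ) (K x z P0 D r L : ℕ) (c : Finset ℕ → ℝ) (M : ℝ)
    (hP : ∀ p ∈ P, p.Prime ∧ K < p ∧ P0 ≤ p ∧ p ≤ z) (hP0 : 1 ≤ P0) (hz : 1 ≤ z)
    (hrL : r * L ≤ K) (hKx : K ≤ x)
    (hc : ∀ T ∈ P.powerset, |c T| ≤ 2 * 2 ^ T.card)
    (hD : ∀ T ∈ P.powerset, D < T.card → c T = 0) (hM : Mn P c = 0)
    (hV : 0 ≤ Mn P (conv c c))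
    (B : Finset ℕ) (hB : ∀ n ∈ B, K < n ∧ n ≤ x ∧ ∀ k ∈ Icc 1 K, Gf P c (n - k) = M) :
    (B.card : ℝ) * (L * M) ^ (2 * r) ≤ x * (L : ℝ) ^ r * (Mn P (conv c c)) ^ r +
      (L : ℝ) ^ (2 * r) *
      (((z : ℝ) ^ (2 * D * (2 * r)) + x * (2 * r : ℝ) ^ 2 * 9 ^ 2 * (∑ p ∈ P, 1 / (p : ℝ)) / P0) *
        (4 * pr P 9) ^ (2 * r)) := by
  set V : ℝ := Mn P (conv c c) with hVdef
  set E : ℝ := ((z : ℝ) ^ (2 * D * (2 * r)) +
    x * (2 * r : ℝ) ^ 2 * 9 ^ 2 * (∑ p ∈ P, 1 / (p : ℝ)) / P0) *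
        (4 * pr P 9) ^ (2 * r) with hE
  -- the function
  set F : ℕ → ℝ := fun n => ∏ j : Fin r, (∑ i : Fin L, Gf P c (n - (j.1 * L + i.1 + 1))) ^ 2
    with hF
  have hshift : ∀ (j : Fin r) (i : Fin L), j.1 * L + i.1 + 1 ∈ Icc 1 K := by
    intro j i
    rw [Finset.mem_Icc]
    refine ⟨by omega, ?_⟩
    have h1 : j.1 * L + L ≤ r * L := by
      have h2 : (j.1 + 1) * L ≤ r * L := Nat.mul_le_mul_right L j.2
      have h3 : (j.1 + 1) * L = j.1 * L + L := by ring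
      omega
    have h4 := i.2
    omega
  have hFB : ∀ n ∈ B, F n = ((L : ℝ) * M) ^ (2 * r) := by
    intro n hn
    have h1 : ∀ j : Fin r, (∑ i : Fin L, Gf P c (n - (j.1 * L + i.1 + 1))) ^ 2 =
        ((L : ℝ) * M) ^ 2 := by
      intro j
      congr 1
      rw [Finset.sum_congr rfl (fun i _ => (hB n hn).2.2 _ (hshift j i)), Finset.sum_const,
        Finset.card_univ, Fintype.card_fin, nsmul_eq_mul]
    show ∏ j : Fin r, (∑ i : Fin L, Gf P c (n - (j.1 * L + i.1 + 1))) ^ 2 = _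
    rw [Finset.prod_congr rfl (fun j _ => h1 j), Finset.prod_const, Finset.card_univ,
      Fintype.card_fin, pow_mul]
  have hF0 : ∀ n, 0 ≤ F n := fun n => Finset.prod_nonneg fun j _ => sq_nonneg _
  have hsub : B ⊆ Ioc K x := by
    intro n hn
    rw [Finset.mem_Ioc]
    exact ⟨(hB n hn).1, (hB n hn).2.1⟩
  have h1 : (B.card : ℝ) * (L * M) ^ (2 * r) ≤ ∑ n ∈ Ioc K x, F n := by
    calc (B.card : ℝ) * (L * M) ^ (2 * r) = ∑ n ∈ B, F n := by
          rw [Finset.sum_congr rfl hFB, Finset.sum_const, nsmul_eq_mul]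
      _ ≤ ∑ n ∈ Ioc K x, F n :=
          Finset.sum_le_sum_of_subset_of_nonneg hsub fun n _ _ => hF0 n
  have h2 : ∑ n ∈ Ioc K x, F n = ∑ τ : Fin r → Fin L × Fin L, ∑ n ∈ Ioc K x,
      ∏ j : Fin r, (Gf P c (n - (j.1 * L + (τ j).1.1 + 1)) *
        Gf P c (n - (j.1 * L + (τ j).2.1 + 1))) := by
    rw [Finset.sum_comm]
    refine Finset.sum_congr rfl fun n _ => ?_
    exact prod_sq fun (j : Fin r) (i : Fin L) => Gf P c (n - (j.1 * L + i.1 + 1))
  have h3 : ∀ τ : Fin r → Fin L × Fin L, ∑ n ∈ Ioc K x,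
      ∏ j : Fin r, (Gf P c (n - (j.1 * L + (τ j).1.1 + 1)) *
        Gf P c (n - (j.1 * L + (τ j).2.1 + 1))) ≤
      ((x : ℝ) - K) * (if ∀ j, (τ j).1 = (τ j).2 then V ^ r else 0) + E := by
    intro τ
    have h4 := term P K x z P0 D r L c hP hP0 hz hrL hKx hc hD hM τ
    have h5 := (abs_le.1 h4).2
    linarith
  have h6 : ∑ τ : Fin r → Fin L × Fin L,
      (((x : ℝ) - K) * (if ∀ j, (τ j).1 = (τ j).2 then V ^ r else 0) + E) =
      ((x : ℝ) - K) * ((L : ℝ) ^ r * V ^ r) + (L : ℝ) ^ (2 * r) * E := by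
    rw [Finset.sum_add_distrib, ← Finset.mul_sum, diag_sum, Finset.sum_const, Finset.card_univ,
      Fintype.card_fun, Fintype.card_prod, Fintype.card_fin, Fintype.card_fin, nsmul_eq_mul]
    congr 2
    push_cast
    rw [← sq, ← pow_mul]
  have h7 : ((x : ℝ) - K) * ((L : ℝ) ^ r * V ^ r) ≤ x * (L : ℝ) ^ r * V ^ r := by
    have h8 : 0 ≤ (L : ℝ) ^ r * V ^ r := by positivity
    have h9 : (0 : ℝ) ≤ K := Nat.cast_nonneg K
    nlinarith
  calc (B.card : ℝ) * (L * M) ^ (2 * r) ≤ ∑ n ∈ Ioc K x, F n := h1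
    _ = ∑ τ : Fin r → Fin L × Fin L, ∑ n ∈ Ioc K x,
      ∏ j : Fin r, (Gf P c (n - (j.1 * L + (τ j).1.1 + 1)) *
        Gf P c (n - (j.1 * L + (τ j).2.1 + 1))) := h2
    _ ≤ ∑ τ : Fin r → Fin L × Fin L,
      (((x : ℝ) - K) * (if ∀ j, (τ j).1 = (τ j).2 then V ^ r else 0) + E) :=
        Finset.sum_le_sum fun τ _ => h3 τ
    _ = ((x : ℝ) - K) * ((L : ℝ) ^ r * V ^ r) + (L : ℝ) ^ (2 * r) * E := h6
    _ ≤ _ := by linarith

lemma frac_le_one (P : Finset ℕ) (hP : ∀ p ∈ P, p.Prime) (a : ℕ) : frac P a ≤ 1 := by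
  unfold frac
  have h1 : 0 < ∏ p ∈ P, p := Finset.prod_pos fun p hp => (hP p hp).pos
  rw [div_le_one (by exact_mod_cast h1)]
  have h2 := Finset.card_filter_le (Icc 1 (∏ p ∈ P, p)) (fun m => om P m = a)
  rw [Nat.card_Icc, Nat.add_sub_cancel] at h2
  exact_mod_cast h2

/-- the finite inequality of the strong form: `block` for `c = psi P (ca a D)`, `M = Mn P (ca a D)`
(`ca_low`, `psi_Gf`, `psi_Mn`, `psi_var`, `M_bounds`, `ca_coef`; `a ≥ 1` and `M ≤ 3/2`, so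
`|psi ∅| ≤ 2`; the coefficients of `psi` vanish for `D < |T|`, `T = ∅` being no exception).
`M ≥ frac/2`, `Mn (conv psi psi) ≤ (3/2) frac`. -/
theorem fail_count (P : Finset ℕ) (K x z P0 D r L a : ℕ)
    (hP : ∀ p ∈ P, p.Prime ∧ K < p ∧ P0 ≤ p ∧ p ≤ z) (hP0 : 1 ≤ P0) (hz : 1 ≤ z)
    (hL : 1 ≤ L) (hrL : r * L ≤ K) (hKx : K ≤ x) (ha : 1 ≤ a)
    (hfr : 0 < frac P a)
    (hε : Real.exp (-(D : ℝ)) * pr P (9 * Real.exp 1 - 1) ≤ frac P a / 2)
    (B : Finset ℕ) (hB : ∀ n ∈ B, K < n ∧ n ≤ x ∧ ∀ k ∈ Icc 1 K, om P (n - k) < a) :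
    (B.card : ℝ) ≤ x * (8 / (L * frac P a)) ^ r + (2 / frac P a) ^ (2 * r) *
      (((z : ℝ) ^ (2 * D * (2 * r)) + x * (2 * r : ℝ) ^ 2 * 9 ^ 2 * (∑ p ∈ P, 1 / (p : ℝ)) / P0) *
        (4 * pr P 9) ^ (2 * r)) := by
  have hP' : ∀ p ∈ P, p.Prime := fun p hp => (hP p hp).1
  obtain ⟨hm1, hm2⟩ := M_bounds P hP' a D
  obtain ⟨hv1, hv2⟩ := psi_var P hP' (ca a D)
  set f : ℝ := frac P a with hf
  set ε : ℝ := Real.exp (-(D : ℝ)) * pr P (9 * Real.exp 1 - 1) with hεd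
  set M : ℝ := Mn P (ca a D) with hMd
  set V : ℝ := Mn P (conv (psi P (ca a D)) (psi P (ca a D))) with hVd
  have hf1 : f ≤ 1 := frac_le_one P hP' a
  have hMlo : f / 2 ≤ M := by
    have := (abs_le.1 hm1).1
    linarith
  have hMhi : M ≤ 3 / 2 := by
    have := (abs_le.1 hm1).2
    linarith
  have hM0 : 0 < M := by linarith
  have hVhi : V ≤ 3 / 2 * f := by linarith
  have hca0 : ca a D ∅ = 0 := by
    unfold ca
    rw [Finset.card_empty, Nat.choose_eq_zero_of_lt (by omega : 0 < a)]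
    simp
  have hc : ∀ T ∈ P.powerset, |psi P (ca a D) T| ≤ 2 * 2 ^ T.card := by
    intro T _
    unfold psi
    by_cases hT : T = ∅
    · subst hT
      rw [if_pos rfl, hca0, sub_zero, Finset.card_empty, pow_zero]
      rw [abs_of_pos (show 0 < Mn P (ca a D) from hM0)]
      have : Mn P (ca a D) ≤ 3 / 2 := hMhi
      linarith
    · rw [if_neg hT, zero_sub, abs_neg]
      have h1 := ca_coef a D T
      have h2 : (0 : ℝ) < 2 ^ T.card := by positivity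
      linarith
  have hD : ∀ T ∈ P.powerset, D < T.card → psi P (ca a D) T = 0 := by
    intro T _ hT
    unfold psi
    have hT0 : T ≠ ∅ := by
      rintro rfl
      rw [Finset.card_empty] at hT
      omega
    rw [if_neg hT0]
    unfold ca
    rw [if_neg (by omega)]
    ring
  have hB' : ∀ n ∈ B, K < n ∧ n ≤ x ∧ ∀ k ∈ Icc 1 K, Gf P (psi P (ca a D)) (n - k) = M := by
    intro n hn
    obtain ⟨h1, h2, h3⟩ := hB n hn
    refine ⟨h1, h2, fun k hk => ?_⟩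
    rw [psi_Gf, ca_low P hP' a D (n - k) (h3 k hk), sub_zero]
  have hb := block P K x z P0 D r L (psi P (ca a D)) M hP hP0 hz hrL hKx hc hD
    (psi_Mn P (ca a D)) hv1 B hB'
  set E : ℝ := ((z : ℝ) ^ (2 * D * (2 * r)) +
    x * (2 * r : ℝ) ^ 2 * 9 ^ 2 * (∑ p ∈ P, 1 / (p : ℝ)) / P0) *
        (4 * pr P 9) ^ (2 * r) with hE
  have hE0 : 0 ≤ E := by
    have h1 : 0 ≤ (4 * pr P 9) ^ (2 * r) := (even_two_mul r).pow_nonneg _
    have h2 : 0 ≤ ∑ p ∈ P, 1 / (p : ℝ) := Finset.sum_nonneg fun p _ => by positivity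
    positivity
  have hL0 : (0 : ℝ) < L := by exact_mod_cast hL
  have hLM : 0 < ((L : ℝ) * M) ^ (2 * r) := by positivity
  have h1 : (B.card : ℝ) ≤ (x * (L : ℝ) ^ r * V ^ r + (L : ℝ) ^ (2 * r) * E) /
      ((L : ℝ) * M) ^ (2 * r) := by
    rw [le_div_iff₀ hLM]
    exact hb
  have h2 : (x * (L : ℝ) ^ r * V ^ r + (L : ℝ) ^ (2 * r) * E) / ((L : ℝ) * M) ^ (2 * r) =
      x * (V / (L * M ^ 2)) ^ r + (1 / M) ^ (2 * r) * E := by
    have e1 : ((L : ℝ) * M) ^ (2 * r) = (L : ℝ) ^ (2 * r) * M ^ (2 * r) := mul_pow _ _ _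
    have e2 : (L : ℝ) ^ (2 * r) = (L : ℝ) ^ r * (L : ℝ) ^ r := by rw [two_mul, pow_add]
    have e3 : (L * M ^ 2) ^ r = (L : ℝ) ^ r * M ^ (2 * r) := by rw [mul_pow, ← pow_mul]
    rw [div_pow, e3, e1, one_div, inv_pow, e2]
    have e4 : (L : ℝ) ^ r ≠ 0 := by positivity
    have e5 : M ^ (2 * r) ≠ 0 := by positivity
    field_simp
  have h3 : (V / (L * M ^ 2)) ^ r ≤ (8 / (L * f)) ^ r := by
    apply pow_le_pow_left₀ (by positivity)
    rw [div_le_div_iff₀ (by positivity) (by positivity)]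
    have e1 : f ^ 2 / 4 ≤ M ^ 2 := by nlinarith
    have e2 : V * (L * f) ≤ 3 / 2 * f * (L * f) := by
      apply mul_le_mul_of_nonneg_right hVhi (by positivity)
    have e3 : 3 / 2 * f * (L * f) ≤ 8 * (L * M ^ 2) := by
      have e4 : (L : ℝ) * (f ^ 2 / 4) ≤ L * M ^ 2 := mul_le_mul_of_nonneg_left e1 hL0.le
      have e5 : 0 ≤ (L : ℝ) * f ^ 2 := by positivity
      nlinarith
    linarith
  have h4 : (1 / M) ^ (2 * r) ≤ (2 / f) ^ (2 * r) := by
    apply pow_le_pow_left₀ (by positivity)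
    rw [div_le_div_iff₀ hM0 hfr]
    linarith
  calc (B.card : ℝ) ≤ _ := h1
    _ = x * (V / (L * M ^ 2)) ^ r + (1 / M) ^ (2 * r) * E := h2
    _ ≤ x * (8 / (L * f)) ^ r + (2 / f) ^ (2 * r) * E := by
        have e1 := mul_le_mul_of_nonneg_left h3 (Nat.cast_nonneg (α := ℝ) x)
        have e2 := mul_le_mul_of_nonneg_right h4 hE0
        linarith

end Pool.Agent.helper56.NS
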